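import Pool.Agent.H7.KR.Stmts

/-!
# Board `kr`, row BON (MP_fd41b2_co): strangers, and a small part.
-/

set_option autoImplicit false

open Finset

namespace Pool.KR

open Pool.Agent.H23.KT Pool.Agent.H46.KW Pool.KQ

namespace BONAux

variable {V : Type} [Fintype V] [DecidableEq V]

/-- Fewer cliques, smaller sum. -/
lemma es_mono (hYSM : YSMStmt) (G : SimpleGraph V) (p a : ℕ) {v u : V} (hu : u ∈ nb G univ v)
    {X : Finset V} (hX : X ⊆ co G v u) :
    ES G p a v u X ≤ ES G p a v u (co G v u) := by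
  unfold ES
  refine sum_le_sum_of_subset_of_nonneg ?_ ?_
  · intro S hS
    rw [mem_clq] at hS ⊢
    exact ⟨hS.1.trans hX, hS.2⟩
  · intro S hS _
    obtain ⟨h1, h2, _⟩ := (mem_clq G).1 hS
    have huv : G.Adj v u := ((mem_nb G).1 hu).2
    have huS : u ∉ S := fun h => G.irrefl ((mem_nb G).1 (h1 h)).2
    have hvS : v ∉ insert u S := by
      intro h
      rw [mem_insert] at h
      rcases h with h | h
      · exact huv.ne h
      · exact G.irrefl ((mem_nb G).1 ((mem_nb G).1 (h1 h)).1).2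
    have hc : (insert v (insert u S)).card = p + 4 := by
      rw [card_insert_of_notMem hvS, card_insert_of_notMem huS, h2]
    have := (hYSM G p a _ hc).1 v
    positivity

open Classical in
/-- The vertices of `X` adjacent to a vertex of `U`. -/
noncomputable def TT (G : SimpleGraph V) (X U : Finset V) : Finset V :=
  X.filter (fun u => ∃ z ∈ U, G.Adj u z)

omit [Fintype V] in
lemma card_TT {G : SimpleGraph V} {W X U : Finset V} (hX : X ⊆ W) {d : ℝ}
    (hd : ∀ z ∈ U, ((nb G W z).card : ℝ) ≤ d) : ((TT G X U).card : ℝ) ≤ U.card * d := by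
  classical
  have h1 : TT G X U ⊆ U.biUnion (fun z => nb G W z) := by
    intro u hu
    unfold TT at hu
    rw [mem_filter] at hu
    obtain ⟨hu, z, hz, ha⟩ := hu
    rw [mem_biUnion]
    exact ⟨z, hz, (mem_nb G).2 ⟨hX hu, ha.symm⟩⟩
  have h2 := (card_le_card h1).trans card_biUnion_le
  have h3 : ((TT G X U).card : ℝ) ≤ ∑ z ∈ U, ((nb G W z).card : ℝ) := by exact_mod_cast h2
  refine h3.trans ((sum_le_sum hd).trans (le_of_eq ?_))
  rw [sum_const, nsmul_eq_mul]

end BONAux

/-- Exceptional vertices which are strangers, and a small part. -/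
theorem bon (hEDG : EDGStmt) (hCOV : COVStmt) (hCDG : CDGStmt) (hMEE : MEEStmt)
    (hKAP : KAPStmt) (hNBR : NBRStmt) (hYSM : YSMStmt) : BONStmt := by
  classical
  intro p C hC
  obtain ⟨a₁, hEDG⟩ := hEDG p
  obtain ⟨a₃, hCDG⟩ := hCDG p C
  have hd0 : (0 : ℝ) < 1 / (3 * C) := by positivity
  refine ⟨min 1 (1 / (3 * C)), lt_min one_pos hd0, max (max a₁ a₃) (p + 2), ?_⟩
  intro a ha V _ _ G hG v e P U hS he0 he1 hUne hstr hP
  obtain ⟨i, hi⟩ := hP
  obtain ⟨δ, hδ⟩ : ∃ δ : ℝ, δ = min 1 (1 / (3 * C)) := ⟨_, rfl⟩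
  rw [← hδ] at hstr
  have hδ0 : 0 < δ := by rw [hδ]; exact lt_min one_pos hd0
  have hδ1 : δ ≤ 1 := by rw [hδ]; exact min_le_left _ _
  have hδ2 : 3 * (C * δ) ≤ 1 := by
    have : δ ≤ 1 / (3 * C) := by rw [hδ]; exact min_le_right _ _
    rw [le_div_iff₀ (by positivity)] at this
    linarith
  simp only [ge_iff_le, max_le_iff] at ha
  obtain ⟨⟨ha1, ha3⟩, hap⟩ := ha
  have hap' : (p : ℝ) + 2 ≤ a := by exact_mod_cast hap
  have ha0 : (0 : ℝ) < a := by
    have : (0 : ℝ) ≤ p := Nat.cast_nonneg _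
    linarith
  have hWc := hG.deg v
  have hD : (p + 3) * a + (p + 2) = (p + 2) * (a + 1) + a := by ring
  obtain ⟨N, hN⟩ : ∃ N : ℕ, N + ((P i).card + 1) = (p + 3) * a + (p + 2) :=
    ⟨(p + 3) * a + (p + 2) - ((P i).card + 1), by omega⟩
  have hDN : (p + 2) * (a + 1) ≤ N := by omega
  obtain ⟨B, hB⟩ : ∃ B : ℝ, B = (bal (p + 2) N : ℝ) := ⟨_, rfl⟩
  have hB0 : 0 ≤ B := by rw [hB]; exact Nat.cast_nonneg _
  have hBa : (a : ℝ) ^ (p + 2) ≤ B := by
    have h1 : ((a + 1) ^ (p + 2) : ℕ) ≤ bal (p + 2) N := by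
      rw [← hNBR.1 p a]
      exact bal_mono (by omega) hDN
    have h2 : (((a + 1) ^ (p + 2) : ℕ) : ℝ) ≤ B := by rw [hB]; exact_mod_cast h1
    refine le_trans ?_ h2
    push_cast
    exact pow_le_pow_left₀ ha0.le (by linarith) _
  have hkB : (((P i).card : ℝ) + 1) * B ≤ bal (p + 3) ((p + 3) * a + (p + 2)) := by
    have := hNBR.2.2.1 p a ((P i).card + 1) N (by omega)
    rw [hB]
    exact_mod_cast this
  have hB1 : (a : ℝ) * (bal (p + 2) (N + 1) : ℝ) ≤ a * B + B := by
    have := hNBR.2.2.2.1 p a N (le_trans (Nat.mul_le_mul_left _ (Nat.le_succ a)) hDN)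
    rw [← hB] at this
    linarith
  have hI : P i ⊆ nb G univ v := fun u hu => (hS.cov u).2 (Or.inr ⟨i, hu⟩)
  have hUW : U ⊆ nb G univ v := fun z hz => (hS.cov z).2 (Or.inl hz)
  obtain ⟨c1, c2, _⟩ := hCDG a ha3 G e _ P U hS he0 he1 hWc i
  -- one vertex
  have hES : ∀ u ∈ P i, ES G p a v u (co G v u \ U) ≤
      a * B + (if ∃ z ∈ U, G.Adj u z then B else 0) := by
    intro u hu
    have hcc := c1 u hu
    have h0 : (co G v u).card = (nb G (nb G univ v) u).card := rfl
    have hE := hEDG a ha1 G hG v u (hI hu) (c2 _ (by omega))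
    have hm := BONAux.es_mono hYSM G p a (hI hu) (X := co G v u \ U) sdiff_subset
    split_ifs with h
    · refine hm.trans (hE.trans (le_trans ?_ hB1))
      refine mul_le_mul_of_nonneg_left ?_ ha0.le
      exact_mod_cast bal_mono (q := p + 2) (by omega) (max_le (by omega) (by omega))
    · push Not at h
      rw [add_zero]
      have hnon : non G U u = U := by
        unfold non
        rw [filter_eq_self]
        exact h
      rw [hnon] at hcc
      have hU1 : 1 ≤ U.card := hUne.card_pos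
      refine hm.trans (hE.trans ?_)
      rw [hB]
      refine mul_le_mul_of_nonneg_left ?_ ha0.le
      exact_mod_cast bal_mono (q := p + 2) (by omega) (max_le (by omega) (by omega))
  have hsum : ∑ u ∈ P i, ES G p a v u (co G v u \ U) ≤
      (P i).card * (a * B) + (BONAux.TT G (P i) U).card * B := by
    refine (sum_le_sum hES).trans (le_of_eq ?_)
    rw [sum_add_distrib, sum_const, nsmul_eq_mul, ← sum_filter, sum_const, nsmul_eq_mul]
    unfold BONAux.TT
    rfl
  have hT : ((BONAux.TT G (P i) U).card : ℝ) ≤ C * δ * a := by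
    refine (BONAux.card_TT hI hstr).trans ?_
    rw [mul_assoc]
    exact mul_le_mul_of_nonneg_right hS.cU (by positivity)
  -- the other cliques
  obtain ⟨κ, hκ⟩ : ∃ κ : ℝ, κ = (((clq G (nb G univ v) (p + 3)).filter
        (fun L => ¬ Disjoint L U)).card : ℝ) := ⟨_, rfl⟩
  have hκ0 : 0 ≤ κ := by rw [hκ]; exact Nat.cast_nonneg _
  have hκ1 : κ ≤ C * δ * (a : ℝ) ^ (p + 2) := by
    have h1 := (hKAP G p (δ * a) (nb G univ v) U hUW hstr).1
    rw [← hκ] at h1
    refine h1.trans ?_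
    rw [mul_assoc]
    refine mul_le_mul hS.cU ?_ (by positivity) hC.le
    rw [mul_pow]
    refine mul_le_mul_of_nonneg_right ?_ (by positivity)
    calc δ ^ (p + 2) = δ ^ (p + 1) * δ := pow_succ _ _
      _ ≤ 1 * δ := mul_le_mul_of_nonneg_right (pow_le_one₀ hδ0.le hδ1) hδ0.le
      _ = δ := one_mul _
  have hcov := hCOV G p a v (P i) U hI
  have hfil : (((clq G (nb G univ v) (p + 3)).filter
        (fun L => ¬ (Disjoint L U ∧ ¬ Disjoint L (P i)))).card : ℝ) ≤ κ := by
    rw [hκ]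
    norm_cast
    refine card_le_card ?_
    intro L hL
    rw [mem_filter] at hL ⊢
    refine ⟨hL.1, fun hd => hL.2 ⟨hd, ?_⟩⟩
    obtain ⟨u, hu1, hu2⟩ := (hMEE G p a e C _ P U hS L hL.1).1 hd i
    rw [not_disjoint_iff]
    exact ⟨u, hu1, hu2⟩
  have hp0 : (0 : ℝ) ≤ p := Nat.cast_nonneg _
  have h1 : ((a : ℝ) + p + 2) * (((clq G (nb G univ v) (p + 3)).filter
        (fun L => ¬ (Disjoint L U ∧ ¬ Disjoint L (P i)))).card : ℝ) ≤
      2 * a * (C * δ * B) := by
    refine mul_le_mul (by linarith) (hfil.trans (hκ1.trans ?_)) (Nat.cast_nonneg _)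
      (by positivity)
    exact mul_le_mul_of_nonneg_left hBa (by positivity)
  have h2 : ((BONAux.TT G (P i) U).card : ℝ) * B ≤ C * δ * a * B :=
    mul_le_mul_of_nonneg_right hT hB0
  have h3 : 3 * (C * δ) * (a * B) ≤ 1 * (a * B) :=
    mul_le_mul_of_nonneg_right hδ2 (by positivity)
  have h4 := mul_le_mul_of_nonneg_left hkB ha0.le
  have h5 : LS G p a v ≤ (P i).card * (a * B) + C * δ * a * B + 2 * a * (C * δ * B) := by
    linarith
  refine h5.trans (le_trans ?_ h4)
  linarith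

end Pool.KR
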